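import Mathlib

set_option autoImplicit false

namespace Pool.Agent.Results.MP_d8de41_al.SumOfS3

open Filter

universe u

/-- The normal subgroup of sequences equal to the identity on a set of the ultrafilter. -/
def ultraKernel (U : Ultrafilter ℕ) (G : ℕ → Type u) [∀ i, Group (G i)] :
    Subgroup (∀ i, G i) where
  carrier := {x | ∀ᶠ i in (U : Filter ℕ), x i = 1}
  one_mem' := Filter.Eventually.of_forall (fun _ => rfl)
  mul_mem' := by
    intro x y hx hy
    filter_upwards [hx, hy] with i h1 h2
    rw [Pi.mul_apply, h1, h2, one_mul]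
  inv_mem' := by
    intro x hx
    filter_upwards [hx] with i h1
    rw [Pi.inv_apply, h1, inv_one]

instance ultraKernel_normal (U : Ultrafilter ℕ) (G : ℕ → Type u) [∀ i, Group (G i)] :
    (ultraKernel U G).Normal where
  conj_mem := by
    intro x hx g
    have hx' : ∀ᶠ i in (U : Filter ℕ), x i = 1 := hx
    show ∀ᶠ i in (U : Filter ℕ), (g * x * g⁻¹) i = 1
    filter_upwards [hx'] with i h1
    rw [Pi.mul_apply, Pi.mul_apply, Pi.inv_apply, h1, mul_one, mul_inv_cancel]

/-- A group `H` is a ui-group if it is a homomorphic image of an ultraproduct of a sequence of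
groups over a nonprincipal ultrafilter on the natural numbers. -/
def IsUIGroup (H : Type) [Group H] : Prop :=
  ∃ (G : ℕ → Type u) (_ : ∀ i, Group (G i)) (U : Ultrafilter ℕ),
    (∀ n : ℕ, {n} ∉ U) ∧
    ∃ f : ((∀ i, G i) ⧸ ultraKernel U G) →* H, Function.Surjective f

/-- Bounded torsion groups. -/
def IsBoundedTorsion (H : Type) [Group H] : Prop :=
  ∃ n : ℕ, 0 < n ∧ ∀ h : H, h ^ n = 1

/-- The direct sum of countably many copies of the symmetric group on three letters, as the group
of finitely supported sequences. -/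
def sumS3 : Subgroup (ℕ → Equiv.Perm (Fin 3)) where
  carrier := {x | {i | x i ≠ 1}.Finite}
  one_mem' := by simp
  mul_mem' := by
    intro x y hx hy
    refine (Set.Finite.union hx hy).subset ?_
    intro i hi
    by_contra hcon
    simp only [Set.mem_union, Set.mem_ofPred_eq, not_or, not_not] at hcon
    apply hi
    rw [Pi.mul_apply, hcon.1, hcon.2, one_mul]
  inv_mem' := by
    intro x hx
    refine Set.Finite.subset hx ?_
    intro i hi hcon
    apply hi
    rw [Pi.inv_apply, hcon, inv_one]

/-- The word. -/
def W {G : Type u} [Group G] (x y b : G) : G := b * b * x * b⁻¹ * x⁻¹ * y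

lemma W_map {G : Type*} {H : Type*} [Group G] [Group H] (f : G →* H) (x y b : G) :
    f (b * b * x * b⁻¹ * x⁻¹ * y) = f b * f b * f x * (f b)⁻¹ * (f x)⁻¹ * f y := by
  simp

/-- A transposition. -/
def tau : Equiv.Perm (Fin 3) := Equiv.swap 0 1

/-- A three cycle. -/
def cyc : Equiv.Perm (Fin 3) := Equiv.swap 0 1 * Equiv.swap 1 2

lemma W_ne : ∀ b : Equiv.Perm (Fin 3), b * b * tau * b⁻¹ * tau⁻¹ * cyc ≠ 1 := by
  decide

/-- An element supported in one coordinate. -/
def sgl (m : ℕ) (a : Equiv.Perm (Fin 3)) : sumS3 :=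
  ⟨Function.update 1 m a, by
    refine (Set.finite_singleton m).subset ?_
    intro i hi
    by_contra hcon
    apply hi
    rw [Function.update_of_ne hcon]
    rfl⟩

/-- The solutions of the system of equations, in one coordinate. -/
def sol {G : Type u} [Group G] (u v : ℕ → G) (i : ℕ) : ℕ → G
  | 0 => 1
  | k + 1 =>
      let z := sol u v i k
      z * z * u (i - k) * z⁻¹ * (u (i - k))⁻¹ * v (i - k)

/-- The `m`-th unknown at the coordinate `i`. -/
def zz {G : Type u} [Group G] (u v : ℕ → G) (i m : ℕ) : G :=
  if m ≤ i then sol u v i (i + 1 - m) else 1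

lemma zz_eq {G : Type u} [Group G] (u v : ℕ → G) (i m : ℕ)
    (hu : ∀ m, i < m → u m = 1) (hv : ∀ m, i < m → v m = 1) :
    zz u v i m = zz u v i (m + 1) * zz u v i (m + 1) * u m * (zz u v i (m + 1))⁻¹ *
      (u m)⁻¹ * v m := by
  by_cases hm : m ≤ i
  · have h1 : i + 1 - m = (i + 1 - (m + 1)) + 1 := by omega
    have h2 : zz u v i (m + 1) = sol u v i (i + 1 - (m + 1)) := by
      unfold zz
      split_ifs with h
      · rfl
      · have : i + 1 - (m + 1) = 0 := by omega
        rw [this]
        rfl
    have h3 : zz u v i m = sol u v i (i + 1 - m) := if_pos hm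
    rw [h2, h3, h1]
    have h4 : i - (i + 1 - (m + 1)) = m := by omega
    show (let z := sol u v i (i + 1 - (m + 1))
      z * z * u (i - (i + 1 - (m + 1))) * z⁻¹ * (u (i - (i + 1 - (m + 1))))⁻¹ *
        v (i - (i + 1 - (m + 1)))) = _
    rw [h4]
  · have h1 : zz u v i m = 1 := if_neg hm
    have h2 : zz u v i (m + 1) = 1 := if_neg (by omega)
    rw [h1, h2, hu m (by omega), hv m (by omega)]
    simp

/-- The direct sum of countably many copies of the symmetric group on three letters is a bounded
torsion group which is not a ui-group. -/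
theorem result : IsBoundedTorsion sumS3 ∧ ¬ IsUIGroup.{u} sumS3 := by
  constructor
  · refine ⟨6, by norm_num, ?_⟩
    intro h
    apply Subtype.ext
    funext i
    show h.1 i ^ 6 = 1
    have h1 := pow_card_eq_one (x := h.1 i)
    rw [Fintype.card_perm, Fintype.card_fin] at h1
    exact h1
  · rintro ⟨G, _, U, hU, f, hf⟩
    -- preimages, normalised to be trivial in the first coordinates
    have hpre : ∀ (m : ℕ) (h : sumS3), ∃ x : ∀ i, G i, f (QuotientGroup.mk x) = h ∧
        ∀ i < m, x i = 1 := by
      intro m h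
      obtain ⟨q, hq⟩ := hf h
      obtain ⟨y, rfl⟩ := QuotientGroup.mk_surjective q
      refine ⟨fun i => if i < m then 1 else y i, ?_, fun i hi => if_pos hi⟩
      rw [← hq]
      congr 1
      rw [QuotientGroup.eq]
      show ∀ᶠ i in (U : Filter ℕ), ((fun i => if i < m then 1 else y i)⁻¹ * y) i = 1
      have hfin : ∀ m : ℕ, ∀ᶠ i in (U : Filter ℕ), m ≤ i := by
        intro m
        induction m with
        | zero => exact Filter.Eventually.of_forall (fun i => Nat.zero_le i)
        | succ m ih =>
            have h1 : ∀ᶠ i in (U : Filter ℕ), i ≠ m := by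
              have := Ultrafilter.compl_mem_iff_notMem.2 (hU m)
              exact this
            filter_upwards [ih, h1] with i h2 h3
            omega
      filter_upwards [hfin m] with i hi
      have : ¬ i < m := not_lt.2 hi
      simp [this]
    choose u hu hu' using fun m => hpre m (sgl m tau)
    choose v hv hv' using fun m => hpre m (sgl m cyc)
    let z : ℕ → (∀ i, G i) := fun m i => zz (fun k => u k i) (fun k => v k i) i m
    have hz : ∀ m, z m = z (m + 1) * z (m + 1) * u m * (z (m + 1))⁻¹ * (u m)⁻¹ * v m := by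
      intro m
      funext i
      exact zz_eq (fun k => u k i) (fun k => v k i) i m (fun k hk => hu' k i hk)
        (fun k hk => hv' k i hk)
    let F : (∀ i, G i) →* sumS3 := f.comp (QuotientGroup.mk' (ultraKernel U G))
    have hFu : ∀ m, F (u m) = sgl m tau := fun m => hu m
    have hFv : ∀ m, F (v m) = sgl m cyc := fun m => hv m
    have hFz : ∀ m, F (z m) = F (z (m + 1)) * F (z (m + 1)) * sgl m tau * (F (z (m + 1)))⁻¹ *
        (sgl m tau)⁻¹ * sgl m cyc := by
      intro m
      conv_lhs => rw [hz m]
      rw [W_map, hFu, hFv]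
    have hco : ∀ m k, (F (z m)).1 k = (F (z (m + 1))).1 k * (F (z (m + 1))).1 k *
        (sgl m tau).1 k * ((F (z (m + 1))).1 k)⁻¹ * ((sgl m tau).1 k)⁻¹ * (sgl m cyc).1 k := by
      intro m k
      have := congrArg (fun x : sumS3 => x.1 k) (hFz m)
      exact this
    have hsgl : ∀ m k a, m ≠ k → (sgl m a).1 k = 1 := by
      intro m k a h
      show Function.update (1 : ℕ → Equiv.Perm (Fin 3)) m a k = 1
      rw [Function.update_of_ne (Ne.symm h)]
      rfl
    have hsgl' : ∀ m a, (sgl m a).1 m = a := by
      intro m a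
      show Function.update (1 : ℕ → Equiv.Perm (Fin 3)) m a m = a
      rw [Function.update_self]
    have hne : ∀ k, (F (z k)).1 k ≠ 1 := by
      intro k
      rw [hco k k, hsgl', hsgl']
      exact W_ne _
    have hst : ∀ k m, m ≤ k → (F (z m)).1 k = (F (z k)).1 k := by
      intro k m hm
      obtain ⟨d, hd⟩ := Nat.exists_eq_add_of_le hm
      induction d generalizing m with
      | zero => rw [hd, add_zero]
      | succ d ih =>
          have h1 := ih (m + 1) (by omega) (by omega)
          rw [hco m k, hsgl m k tau (by omega), hsgl m k cyc (by omega), h1]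
          simp
    have hfin := (F (z 0)).2
    have hinf : {i | (F (z 0)).1 i ≠ 1} = Set.univ := by
      apply Set.eq_univ_of_forall
      intro k
      show (F (z 0)).1 k ≠ 1
      rw [hst k 0 (Nat.zero_le k)]
      exact hne k
    have hfin' : {i | (F (z 0)).1 i ≠ 1}.Finite := hfin
    rw [hinf] at hfin'
    exact Set.infinite_univ hfin'

end Pool.Agent.Results.MP_d8de41_al.SumOfS3
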